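import Pool.Agent.Helper80.Ros.Lower
import Pool.Agent.Helper80.Ros.Params
import Pool.Agent.Helper80.Ros.NotLp
import Pool.Agent.Helper80.Ros.Ban

/-!
# The Rosenthal basis problem has a negative answer

There is a Banach space with a normalized basic sequence `x` such that every normalized block
sequence of `x` has a subsequence equivalent to `x`, but `x` is equivalent neither to the unit
vector basis of `c₀` nor to that of `ℓ_p`, `1 ≤ p < ∞`.
-/

namespace Pool.Agent.Results.MP_657285_an.RosenthalBasis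

open Finset Filter Topology
open scoped ENNReal ZeroAtInfty

section defs

variable {X : Type*} [NormedAddCommGroup X] [NormedSpace ℝ X]
variable {Y : Type*} [NormedAddCommGroup Y] [NormedSpace ℝ Y]

/-- `x` is a Schauder basis of its closed linear span: every vector `y` of the closed linear span
has exactly one expansion `y = ∑ a_i x_i` (convergence of the partial sums in norm). -/
def IsBasicSeq (x : ℕ → X) : Prop :=
  ∀ y ∈ closure (Submodule.span ℝ (Set.range x) : Set X),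
    ∃! a : ℕ → ℝ, Tendsto (fun n => ∑ i ∈ range n, a i • x i) atTop (𝓝 y)

/-- `v` is a normalized block sequence of `x`:
`v_k = ∑_{p_k ≤ i < p_{k+1}} a_i x_i` with `p_0 < p_1 < ...` and `‖v_k‖ = 1`
(the sequence `x` is indexed from `0`). -/
def IsNormalizedBlock (x v : ℕ → X) : Prop :=
  ∃ (p : ℕ → ℕ) (a : ℕ → ℝ), StrictMono p ∧
    ∀ k, v k = ∑ i ∈ Ico (p k) (p (k + 1)), a i • x i ∧ ‖v k‖ = 1

/-- `x` and `y` are `C`-equivalent. -/
def CEquivalent (C : ℝ) (x : ℕ → X) (y : ℕ → Y) : Prop :=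
  ∃ A B : ℝ, 0 < A ∧ 0 < B ∧ A * B ≤ C ∧ ∀ a : ℕ →₀ ℝ,
    A⁻¹ * ‖∑ i ∈ a.support, a i • y i‖ ≤ ‖∑ i ∈ a.support, a i • x i‖ ∧
    ‖∑ i ∈ a.support, a i • x i‖ ≤ B * ‖∑ i ∈ a.support, a i • y i‖

/-- `x` and `y` are equivalent. -/
def Equivalent (x : ℕ → X) (y : ℕ → Y) : Prop := ∃ C : ℝ, 1 ≤ C ∧ CEquivalent C x y

/-- `x` is a Rosenthal basis: a normalized basic sequence each of whose normalized block sequences
has a subsequence equivalent to `x`. -/
def IsRosenthalBasis (x : ℕ → X) : Prop :=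
  IsBasicSeq x ∧ (∀ n, ‖x n‖ = 1) ∧
    ∀ v : ℕ → X, IsNormalizedBlock x v → ∃ φ : ℕ → ℕ, StrictMono φ ∧ Equivalent (v ∘ φ) x

end defs

/-- The unit vector basis of `c₀`. -/
noncomputable def c0Unit (i : ℕ) : C₀(ℕ, ℝ) where
  toFun := Pi.single i 1
  continuous_toFun := continuous_of_discreteTopology
  zero_at_infty' := by
    rw [Filter.cocompact_eq_cofinite, Nat.cofinite_eq_atTop]
    apply tendsto_const_nhds.congr'
    filter_upwards [eventually_gt_atTop i] with k hk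
    exact (Pi.single_eq_of_ne (M := fun _ : ℕ => ℝ) (ne_of_gt hk) 1).symm

/-- The unit vector basis of `ℓ_p`. -/
noncomputable def lpUnit (p : ℝ≥0∞) (i : ℕ) : lp (fun _ : ℕ => ℝ) p := lp.single p i (1 : ℝ)

section proofs

open Pool.Agent.Ros

variable {n : ℕ → ℕ} {X : Type} [NormedAddCommGroup X] [NormedSpace ℝ X] {x : ℕ → X}

/-- the restriction of `a` to the finite set `S` -/
noncomputable def res (S : Finset ℕ) (a : ℕ → ℝ) : ℕ →₀ ℝ :=
  Finsupp.onFinset S (fun i => if i ∈ S then a i else 0) (fun i hi => by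
    by_contra h
    exact hi (if_neg h))

lemma res_apply (S : Finset ℕ) (a : ℕ → ℝ) (i : ℕ) : res S a i = if i ∈ S then a i else 0 := rfl

lemma sum_support_eq (b : ℕ →₀ ℝ) {S : Finset ℕ} (hS : b.support ⊆ S) :
    ∑ i ∈ b.support, b i • x i = ∑ i ∈ S, b i • x i := by
  apply Finset.sum_subset hS
  intro i _ hi
  rw [Finsupp.notMem_support_iff.mp hi, zero_smul]

lemma sum_res (S : Finset ℕ) (a : ℕ → ℝ) :
    ∑ i ∈ (res S a).support, res S a i • x i = ∑ i ∈ S, a i • x i := by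
  rw [sum_support_eq (x := x) (res S a) (S := S) Finsupp.support_onFinset_subset]
  apply Finset.sum_congr rfl
  intro i hi
  rw [res_apply, if_pos hi]

lemma norm_sum_eq (hx : ∀ a : ℕ →₀ ℝ, ‖∑ i ∈ a.support, a i • x i‖ = N n a) (S : Finset ℕ)
    (a : ℕ → ℝ) : ‖∑ i ∈ S, a i • x i‖ = N n (res S a) := by
  rw [← hx, sum_res]

lemma isBasic (hn : Params n) [CompleteSpace X]
    (hx : ∀ a : ℕ →₀ ℝ, ‖∑ i ∈ a.support, a i • x i‖ = N n a) : IsBasicSeq x := by
  have : Pool.Agent.Ros.IsBasicSeq x := by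
    apply isBasicSeq_of
    · intro a m k hk
      rw [norm_sum_eq hx]
      have h1 := abs_le_N hn (res (range m) a) k
      rwa [res_apply, if_pos (Finset.mem_range.mpr hk)] at h1
    · intro a m m' hm
      rw [norm_sum_eq hx, norm_sum_eq hx]
      apply N_mono hn
      intro i
      rw [res_apply, res_apply]
      by_cases hi : i ∈ range m
      · rw [if_pos hi, if_pos (Finset.range_subset_range.mpr hm hi)]
      · rw [if_neg hi, abs_zero]; exact abs_nonneg _
  exact this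

lemma norm_one (hn : Params n)
    (hx : ∀ a : ℕ →₀ ℝ, ‖∑ i ∈ a.support, a i • x i‖ = N n a) (k : ℕ) : ‖x k‖ = 1 := by
  have h1 : ‖∑ i ∈ {k}, (fun _ => (1 : ℝ)) i • x i‖ = N n (res {k} fun _ => 1) :=
    norm_sum_eq hx _ _
  rw [Finset.sum_singleton, one_smul] at h1
  rw [h1]
  apply le_antisymm
  · apply N_le
    intro f A hf
    have h2 : E (fun i => |res {k} (fun _ => (1 : ℝ)) i|) f = f k := by
      rw [E_eq_sum_of_subset _ f (Finset.subset_union_left (s₂ := {k})),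
        Finset.sum_eq_single_of_mem k (by simp)]
      · rw [res_apply, if_pos (Finset.mem_singleton_self k)]; simp
      · intro i _ hi
        rw [res_apply, if_neg (by simpa using hi)]; simp
    rw [h2]
    exact hf.le_one hn k
  · have h3 := abs_le_N hn (res {k} fun _ => 1) k
    rw [res_apply, if_pos (Finset.mem_singleton_self k), abs_one] at h3
    exact h3

/-- the norm of a combination of blocks -/
lemma norm_comb (hx : ∀ a : ℕ →₀ ℝ, ‖∑ i ∈ a.support, a i • x i‖ = N n a)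
    (u : ℕ → ℕ →₀ ℝ) (v : ℕ → X) (hu : ∀ k, v k = ∑ i ∈ (u k).support, u k i • x i)
    (b : ℕ →₀ ℝ) : ‖∑ k ∈ b.support, b k • v k‖ = N n (comb u b) := by
  have hT : ∀ a : ℕ →₀ ℝ, Finsupp.linearCombination ℝ x a = ∑ i ∈ a.support, a i • x i := fun a => by
    rw [Finsupp.linearCombination_apply]; rfl
  rw [← hx, ← hT, comb, map_sum]
  congr 1
  apply Finset.sum_congr rfl
  intro k _
  rw [map_smul, hT, ← hu]

lemma rosenthal (hn : Params n)
    (hx : ∀ a : ℕ →₀ ℝ, ‖∑ i ∈ a.support, a i • x i‖ = N n a) (v : ℕ → X)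
    (hv : IsNormalizedBlock x v) : ∃ φ : ℕ → ℕ, StrictMono φ ∧ Equivalent (v ∘ φ) x := by
  obtain ⟨p, a, hp, hva⟩ := hv
  let u : ℕ → ℕ →₀ ℝ := fun k => res (Ico (p k) (p (k + 1))) a
  have huv : ∀ k, v k = ∑ i ∈ (u k).support, u k i • x i := fun k => by
    rw [(hva k).1, sum_res]
  have hu1 : ∀ k, N n (u k) = 1 := fun k => by
    rw [← hx, ← huv]; exact (hva k).2
  have hsupp : ∀ k i, i ∈ (u k).support → p k ≤ i ∧ i < p (k + 1) := by
    intro k i hi
    have := Finsupp.support_onFinset_subset hi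
    rwa [Finset.mem_Ico] at this
  have hs : Succ u := by
    intro k k' hkk i hi i' hi'
    have h1 := (hsupp k i hi).2
    have h2 := (hsupp k' i' hi').1
    have h3 : p (k + 1) ≤ p k' := hp.monotone hkk
    omega
  obtain ⟨φ, hφ, δ, hδ, hlow⟩ := norm_lower hn hs hu1
  refine ⟨φ, hφ, max 1 (δ⁻¹ * Real.exp 12), le_max_left _ _, δ⁻¹, Real.exp 12, inv_pos.mpr hδ,
    Real.exp_pos _, le_max_right _ _, fun b => ?_⟩
  have hcomb : ‖∑ k ∈ b.support, b k • (v ∘ φ) k‖ = N n (comb (u ∘ φ) b) :=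
    norm_comb hx (u ∘ φ) (v ∘ φ) (fun k => huv (φ k)) b
  have hsφ : Succ (u ∘ φ) := fun k k' hkk => hs _ _ (hφ hkk)
  rw [hcomb, hx, inv_inv]
  exact ⟨hlow b, norm_upper hn hsφ (fun k => (hu1 _).le) b⟩

lemma ones_eq (m : ℕ) : ones m = res (range m) fun _ => 1 := by
  ext i
  rw [notLp_ones_apply, res_apply]

lemma sum_ones {Y : Type*} [NormedAddCommGroup Y] [NormedSpace ℝ Y] (y : ℕ → Y) (m : ℕ) :
    ∑ i ∈ (ones m).support, ones m i • y i = ∑ i ∈ range m, y i := by
  rw [ones_eq]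
  have h1 : ∑ i ∈ (res (range m) fun _ => (1 : ℝ)).support,
      (res (range m) fun _ => (1 : ℝ)) i • y i =
      ∑ i ∈ range m, (res (range m) fun _ => (1 : ℝ)) i • y i := by
    apply Finset.sum_subset Finsupp.support_onFinset_subset
    intro i _ hi
    have h0 : (res (range m) fun _ => (1 : ℝ)) i = 0 := Finsupp.notMem_support_iff.mp hi
    rw [h0, zero_smul]
  rw [h1]
  apply Finset.sum_congr rfl
  intro i hi
  rw [res_apply, if_pos hi, one_smul]

lemma norm_sum_c0Unit (m : ℕ) : ‖∑ i ∈ range m, c0Unit i‖ ≤ 1 := by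
  rw [← ZeroAtInftyContinuousMap.norm_toBCF_eq_norm]
  rw [BoundedContinuousFunction.norm_le zero_le_one]
  intro k
  have h1 : (∑ i ∈ range m, c0Unit i : C₀(ℕ, ℝ)) k = ∑ i ∈ range m, (Pi.single i (1 : ℝ) : ℕ → ℝ) k := by
    induction m with
    | zero => simp
    | succ m ih =>
      rw [Finset.sum_range_succ, Finset.sum_range_succ, ZeroAtInftyContinuousMap.add_apply, ih]
      rfl
  show ‖(∑ i ∈ range m, c0Unit i : C₀(ℕ, ℝ)) k‖ ≤ 1
  rw [h1]
  by_cases hk : k ∈ range m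
  · rw [Finset.sum_eq_single_of_mem k hk]
    · simp
    · intro i _ hi
      exact Pi.single_eq_of_ne (Ne.symm hi) 1
  · rw [Finset.sum_eq_zero]
    · simp
    · intro i hi
      apply Pi.single_eq_of_ne
      rintro rfl
      exact hk hi

lemma not_c0 (hn : Params n) (hx : ∀ a : ℕ →₀ ℝ, ‖∑ i ∈ a.support, a i • x i‖ = N n a) :
    ¬ Equivalent x c0Unit := by
  rintro ⟨C, _, A, B, hA, hB, _, h⟩
  obtain ⟨j, hj⟩ := exists_nat_gt (max B 1)
  have hj1 : 1 ≤ j := by
    have : (1 : ℝ) < j := (le_max_right _ _).trans_lt hj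
    exact_mod_cast this.le
  have h1 := (h (ones (n j))).2
  rw [hx, sum_ones] at h1
  have h2 := le_N_ones hn hj1
  have h3 := norm_sum_c0Unit (n j)
  have h4 : B * ‖∑ i ∈ range (n j), c0Unit i‖ ≤ B * 1 := mul_le_mul_of_nonneg_left h3 hB.le
  have h5 : B < j := (le_max_left _ _).trans_lt hj
  linarith

lemma norm_sum_lpUnit (p : ℝ≥0∞) [Fact (1 ≤ p)] (hp : p ≠ ⊤) (m : ℕ) :
    ‖∑ i ∈ range m, lpUnit p i‖ ^ p.toReal = m := by
  have hp1 : 1 ≤ p := Fact.out
  have hp0 : 0 < p.toReal := ENNReal.toReal_pos (by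
    rintro rfl
    simp at hp1) hp
  have h1 := lp.norm_sum_single (p := p) (E := fun _ : ℕ => ℝ) hp0 (fun _ => (1 : ℝ)) (range m)
  have h2 : (∑ i ∈ range m, lpUnit p i) = ∑ i ∈ range m, lp.single p i ((fun _ => (1 : ℝ)) i) := rfl
  rw [h2, h1]
  simp

lemma not_lp (hn : Params n) (hx : ∀ a : ℕ →₀ ℝ, ‖∑ i ∈ a.support, a i • x i‖ = N n a)
    (p : ℝ≥0∞) [Fact (1 ≤ p)] (hp : p ≠ ⊤) : ¬ Equivalent x (lpUnit p) := by
  rintro ⟨C, _, A, B, hA, hB, _, h⟩
  have hp1 : 1 ≤ p := Fact.out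
  have hp0 : 0 < p.toReal := ENNReal.toReal_pos (by
    rintro rfl
    simp at hp1) hp
  obtain ⟨j, hj⟩ := exists_nat_gt (max (max A 1) p.toReal)
  have hjA : A < j := (le_max_left A 1).trans_lt ((le_max_left _ _).trans_lt hj)
  have hjp : p.toReal < j := (le_max_right _ _).trans_lt hj
  have hj1 : 1 ≤ j := by
    have : (1 : ℝ) < j := (le_max_right A 1).trans_lt ((le_max_left _ _).trans_lt hj)
    exact_mod_cast this.le
  have h1 := (h (ones (n j))).1
  rw [hx, sum_ones] at h1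
  have h2 := N_ones_le hn hj1
  have h3 := norm_sum_lpUnit p hp (n j)
  set t := ‖∑ i ∈ range (n j), lpUnit p i‖ with ht
  have ht0 : 0 ≤ t := norm_nonneg _
  have hfac : (0 : ℝ) < j.factorial := by exact_mod_cast j.factorial_pos
  have h4 : t ≤ A * j.factorial := by
    have h5 : A⁻¹ * t ≤ j.factorial := h1.trans h2
    calc t = A * (A⁻¹ * t) := by field_simp
      _ ≤ _ := mul_le_mul_of_nonneg_left h5 hA.le
  have h5 : t < j.factorial * j := by
    calc t ≤ A * j.factorial := h4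
      _ < j * j.factorial := mul_lt_mul_of_pos_right hjA hfac
      _ = _ := mul_comm _ _
  have hfj : (1 : ℝ) ≤ j.factorial * j := by
    have h6 : 1 ≤ j.factorial * j := Nat.one_le_iff_ne_zero.mpr
      (Nat.mul_ne_zero j.factorial_pos.ne' (by omega))
    exact_mod_cast h6
  have h6 : t ^ p.toReal < ((j.factorial : ℝ) * j) ^ (j : ℝ) := by
    calc t ^ p.toReal < ((j.factorial : ℝ) * j) ^ p.toReal :=
          Real.rpow_lt_rpow ht0 h5 hp0
      _ ≤ ((j.factorial : ℝ) * j) ^ (j : ℝ) := Real.rpow_le_rpow_of_exponent_le hfj hjp.le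
  rw [h3, Real.rpow_natCast] at h6
  have h7 := hn.fact j hj1
  have h8 : ((j.factorial : ℝ) * j) ^ j ≤ n j := by exact_mod_cast h7
  linarith

end proofs

/-- **The Rosenthal basis problem has a negative answer.** There is a Rosenthal basis which is
equivalent neither to the unit vector basis of `c₀` nor to that of any `ℓ_p`, `1 ≤ p < ∞`. -/
theorem result :
    ∃ (X : Type) (_ : NormedAddCommGroup X) (_ : NormedSpace ℝ X) (_ : CompleteSpace X)
      (x : ℕ → X), IsRosenthalBasis x ∧ ¬ Equivalent x c0Unit ∧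
        ∀ (p : ℝ≥0∞) [Fact (1 ≤ p)], p ≠ ⊤ → ¬ Equivalent x (lpUnit p) := by
  obtain ⟨n, hn⟩ := Pool.Agent.Ros.exists_params
  obtain ⟨X, i1, i2, i3, x, hx⟩ := Pool.Agent.Ros.exists_space hn
  exact ⟨X, i1, i2, i3, x, ⟨isBasic hn hx, norm_one hn hx, rosenthal hn hx⟩, not_c0 hn hx,
    fun p _ hp => not_lp hn hx p hp⟩

end Pool.Agent.Results.MP_657285_an.RosenthalBasis
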